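import Pool.Agent.Q84.OT1
import Pool.Agent.Q84.PG4

set_option autoImplicit false

/-!
# Almost all multiples of highly divisible numbers are sums of two times between isolated primes of orbits

Let `D ≥ 2` and `e > -D`, `e ≠ 0` coprime to `D`; the orbits of `n ↦ D n + e` are the Cunningham
sequences of the second kind for `D = 2`, `e = -1` and of the first kind for `D = 2`, `e = 1`. A number `j`
is a recurring time of level `R` if for every `η > 0` and arbitrarily large `x` at least `x ^ (1 - η)`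
primes `p ≤ x` satisfy: the term of the orbit of `p` at time `j` is the first prime of the orbit after `p`,
none of the `R` terms after it is prime, and `p` is not one of the first `R` terms after a prime `q` in
the orbit of `q`. For `R ≥ 1` and the Cunningham sequences both primes start (and are) complete chains
of exact length one.

For every `ε > 0` there is `M` such that for EVERY multiple `N` of `M` there is `T` such that in EVERY
window of `l ≥ T` consecutive multiples of `N`, however far out, at least `(1 - ε) l` are of the form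
`j + j'` with two recurring times `j`, `j'` of level `R` for which `|j - j'| ≤ T`.
-/

namespace Pool.Agent.Results.MP_39b545_nt.AlmostAllTwoTimes

open Filter Finset Pool.Agent.Q84.PG Pool.Agent.Q84.OT

/-- **Almost all multiples of `N` are sums of two recurring times close to each other.** -/
theorem result (D : ℕ) (e : ℤ) (hD : 2 ≤ D) (he0 : e ≠ 0) (he : -(D : ℤ) < e)
    (hcop : IsCoprime e (D : ℤ)) (R : ℕ) (ε : ℝ) (hε : 0 < ε) :
    ∃ M : ℕ, 0 < M ∧ ∀ N : ℕ, 0 < N → M ∣ N → ∃ T : ℕ, ∀ l : ℕ, T ≤ l → ∀ u : ℕ,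
      (1 - ε) * (l : ℝ) ≤ ({k : ℕ | u < k ∧ k ≤ u + l ∧ ∃ j j' : ℕ, Time D e R j ∧
        Time D e R j' ∧ j + j' = N * k ∧ |(j : ℤ) - j'| ≤ T}.ncard : ℝ) := by
  classical
  obtain ⟨M, hM, h⟩ := half D e hD he0 he hcop R (ε / 31) (by positivity)
  refine ⟨2 * M, by omega, fun N hN hd => ?_⟩
  obtain ⟨r, rfl⟩ := hd
  have hr : 0 < r := Nat.pos_of_ne_zero (by rintro rfl; simp at hN)
  set m := M * r with hm
  have hm0 : 0 < m := Nat.mul_pos hM hr
  obtain ⟨L, hL⟩ := h m hm0 (Dvd.intro _ rfl)
  set G : Set ℕ := {k | Time D e R (m * k)} with hG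
  have hd : ∀ u l : ℕ, L ≤ l → (1 / 2 - ε / 31) * l ≤ ((nwin G u l).card : ℝ) :=
    fun u l hl => hL l hl u
  obtain ⟨T, hT⟩ := almost (by positivity : 0 < ε / 31) hd
  refine ⟨2 * m * T + T, fun l hl u => ?_⟩
  have h1 := hT l (by omega) u
  have h2 : (1 - 31 * (ε / 31)) * (l : ℝ) = (1 - ε) * l := by ring
  rw [h2] at h1
  refine h1.trans ?_
  rw [Nat.cast_le, card_eq (fun k => ∃ j j' : ℕ, Time D e R j ∧
        Time D e R j' ∧ j + j' = 2 * M * r * k ∧ |(j : ℤ) - j'| ≤ ((2 * m * T + T : ℕ) : ℤ))]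
  apply Finset.card_le_card
  intro k hk
  obtain ⟨h3, a', ha', b', hb', hab, h4⟩ := mem_nwin.1 hk
  rw [mem_nwin]
  refine ⟨h3, m * a', m * b', ha', hb', ?_, ?_⟩
  · calc m * a' + m * b' = m * (a' + b') := by ring
      _ = m * (2 * k) := by rw [hab]
      _ = 2 * M * r * k := by rw [hm]; ring
  · have h5 : (a' : ℤ) + b' = 2 * k := by exact_mod_cast hab
    have h6 : ((m * a' : ℕ) : ℤ) - ((m * b' : ℕ) : ℤ) = m * (2 * ((a' : ℤ) - k)) := by
      push_cast
      have h7 : (b' : ℤ) = 2 * k - a' := by linarith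
      rw [h7]; ring
    rw [h6, abs_mul, abs_mul]
    have h8 : (0 : ℤ) ≤ m := by positivity
    have h9 : (0 : ℤ) ≤ T := by positivity
    rw [abs_of_nonneg h8, abs_of_nonneg (by norm_num : (0 : ℤ) ≤ 2)]
    calc (m : ℤ) * (2 * |(a' : ℤ) - k|) ≤ m * (2 * T) := by gcongr
      _ ≤ ((2 * m * T + T : ℕ) : ℤ) := by push_cast; nlinarith

end Pool.Agent.Results.MP_39b545_nt.AlmostAllTwoTimes
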