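import Pool.Agent.Q175.NP.Exact

/-!
# Almost prime Cunningham chains of the second kind of exact length `k` in narrow progressions

The starting points are the numbers `4 m + 3`; the number `2 m + 2` before them in the sequence is even.  A prime `M` which divides no
`2 ^ j - 1`, `1 ≤ j ≤ k` (for example any prime `M > 2 ^ k`), is required to divide the term of index `k`.  So the sequences have
exactly `k` consecutive terms without small prime factors, the terms of indices `0, ..., k - 1`.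
-/

set_option autoImplicit false

namespace Pool.Agent.Results.MP_39b545_nt.ProgressionsOfExactChains

open Finset
open Pool.Agent.Q175.NP

/-- `c i n = 2 ^ i (n - 1) + 1`, the sequence of the second kind `n, 2 n - 1, 4 n - 3, ...` -/
def c (i n : ℕ) : ℕ := 2 ^ i * (n - 1) + 1

open Classical in
/-- the `m` of `(A, B]` such that the terms of indices `0, ..., k - 1` of the sequence starting at `4 m + 3` have no prime factor
`≤ X ^ (1/t)`, and the term of index `k` is divisible by `M` -/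
noncomputable def G (k M t X A B : ℕ) : Finset ℕ :=
  (Ioc A B).filter (fun m => M ∣ c k (4 * m + 3) ∧
    ∀ i < k, ∀ q : ℕ, q.Prime → q ∣ c i (4 * m + 3) → (X : ℝ) ^ (1 / (t : ℝ)) < q)

lemma c_eq (i m : ℕ) : c i (4 * m + 3) = Exact.T true i m := by
  unfold c Exact.T
  simp only [if_true]
  rw [show 4 * m + 3 - 1 = 4 * m + 2 from rfl]

lemma G_eq (k M t X A B : ℕ) : G k M t X A B = Exact.G true k M t X A B := by
  classical
  unfold G Exact.G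
  simp only [c_eq]

/-- **Almost prime Cunningham chains of the second kind of exact length `k` in narrow progressions.** -/
theorem result (k M : ℕ) (hk : 1 ≤ k) (hM : M.Prime) (hM2 : 2 < M) (hord : ∀ j, 1 ≤ j → j ≤ k → ¬ M ∣ 2 ^ j - 1) :
    ∃ t : ℕ, 1 ≤ t ∧
    (∃ X₀ : ℕ, ∀ X : ℕ, X₀ ≤ X → ∀ A B : ℕ, ∀ m ∈ G k M t X A B,
      ¬ (2 * (m + 1)).Prime ∧ ¬ (c k (4 * m + 3)).Prime) ∧
    (∃ δ : ℝ, 0 < δ ∧ ∀ θ : ℝ, 0 < θ → ∃ X₀ : ℕ, ∀ X : ℕ, X₀ ≤ X → ∀ A B : ℕ, θ * X ≤ (B : ℝ) - A →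
      δ * (((B : ℝ) - A) / Real.log X ^ k) ≤ ((G k M t X A B).card : ℝ)) ∧
    (∀ (L : ℕ) (θ ε : ℝ), 0 < θ → 0 < ε → ∃ D X₀ : ℕ, ∀ X : ℕ, X₀ ≤ X → ∀ A B : ℕ, θ * X ≤ (B : ℝ) - A → B ≤ X →
      ∀ S ⊆ G k M t X A B, ε * ((G k M t X A B).card : ℝ) ≤ S.card →
      ∃ m d : ℕ, 1 ≤ d ∧ (d : ℝ) ≤ Real.log X ^ D ∧ ∀ j < L, m + j * d ∈ S) ∧
    (∀ (L r : ℕ) (θ : ℝ), 1 ≤ r → 0 < θ → ∃ D X₀ : ℕ, ∀ X : ℕ, X₀ ≤ X → ∀ A B : ℕ,
      θ * X ≤ (B : ℝ) - A → B ≤ X → ∀ col : ℕ → Fin r,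
      ∃ s : ℕ → ℕ, (∀ i < k, 1 ≤ s i ∧ s i ≤ 2 * t) ∧ ∃ o : Fin r, ∃ m d : ℕ,
        1 ≤ d ∧ (d : ℝ) ≤ Real.log X ^ D ∧ ∀ j < L, m + j * d ∈ G k M t X A B ∧ col (m + j * d) = o ∧
        ∀ i < k, (c i (4 * (m + j * d) + 3)).primeFactorsList.length = s i) := by
  obtain ⟨t, ht, h1, h2, h3⟩ := Exact.core true k M hk hM hM2 hord
  obtain ⟨X₁, h4⟩ := Exact.comp true hk hM ht
  refine ⟨t, ht, ⟨X₁, fun X hX A B m hm => ?_⟩, ?_, ?_, ?_⟩
  · rw [G_eq] at hm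
    obtain ⟨g1, g2⟩ := h4 X hX A B m hm
    rw [c_eq]
    exact ⟨Nat.not_prime_mul (by norm_num) (by omega), g2⟩
  · simp only [G_eq]
    exact h1
  · simp only [G_eq]
    exact h2
  · simp only [G_eq, c_eq]
    exact h3

end Pool.Agent.Results.MP_39b545_nt.ProgressionsOfExactChains
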